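import Mathlib
import Pool.Agent.X50.SL.Ex3

set_option autoImplicit false
set_option linter.unusedSectionVars false
open scoped ENNReal InnerProductSpace Topology Real NNReal
open Module ContinuousLinearMap Filter MeasureTheory
open Pool.Agent.Helper872.Sch Pool.Agent.X50.SL

namespace Pool.Agent.Results.MP_6ade77_an.NormOneBlowUp

universe u

section constr
variable {H : Type u} [NormedAddCommGroup H] [InnerProductSpace ℂ H] [CompleteSpace H]
variable {ι : Type u} {b : HilbertBasis ι ℂ H}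

/-- sizes of the blocks -/
noncomputable def dl (j : ℕ) : ℝ := (1 / 2) ^ (j + 1)

noncomputable def Nb (p : ℝ) (j : ℕ) : ℕ := ⌈((dl j) ^ p)⁻¹ / ((j : ℝ) + 1) ^ 2⌉₊

theorem dl_pos (j : ℕ) : 0 < dl j := by unfold dl; positivity

theorem dl_le (j : ℕ) : dl j ≤ 1 := pow_le_one₀ (by norm_num) (by norm_num)

noncomputable def Sx (p : ℝ) (e : (Σ _ : ℕ, ℕ) ↪ ι) (n : ℕ) : Finset ι :=
  ((Finset.range n).sigma (fun j => Finset.range (Nb p j))).map e

theorem Sx_mono (p : ℝ) (e : (Σ _ : ℕ, ℕ) ↪ ι) : Monotone (Sx p e) := by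
  intro m n hmn
  unfold Sx
  rw [Finset.map_subset_map]
  intro q hq
  rw [Finset.mem_sigma] at hq ⊢
  exact ⟨Finset.range_mono hmn hq.1, hq.2⟩

theorem sum_Sx (p : ℝ) (hp : 0 < p) (e : (Σ _ : ℕ, ℕ) ↪ ι) (n : ℕ) (G : ι → ℂ) (g : ℕ → ℝ)
    (hG : ∀ q, G (e q) = (g q.1 : ℂ)) :
    ∑ k ∈ Sx p e n, ‖G k‖ₑ ^ p
      = ENNReal.ofReal (∑ j ∈ Finset.range n, (Nb p j : ℝ) * |g j| ^ p) := by
  unfold Sx
  rw [Finset.sum_map, Finset.sum_sigma, ENNReal.ofReal_sum_of_nonneg]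
  · refine Finset.sum_congr rfl fun j _ => ?_
    have : ∀ i ∈ Finset.range (Nb p j), ‖G (e ⟨j, i⟩)‖ₑ ^ p = ENNReal.ofReal (|g j| ^ p) := by
      intro i _
      rw [hG, ← ofReal_norm, Complex.norm_real, Real.norm_eq_abs,
        ENNReal.ofReal_rpow_of_nonneg (abs_nonneg _) hp.le]
    rw [Finset.sum_congr rfl this, Finset.sum_const, Finset.card_range, nsmul_eq_mul,
      ENNReal.ofReal_mul (Nat.cast_nonneg _), ENNReal.ofReal_natCast]
  · intro j _
    positivity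

theorem upper (p : ℝ) (hp : 1 ≤ p) : ∃ M : ℝ, 0 ≤ M ∧
    ∀ n, ∑ j ∈ Finset.range n, (Nb p j : ℝ) * |dl j| ^ p ≤ M := by
  have h1 : Summable (fun j : ℕ => 1 / ((j : ℝ) + 1) ^ 2 + dl j) := by
    refine Summable.add ?_ ?_
    · have := (summable_nat_add_iff 1).2 (Real.summable_one_div_nat_pow.2 one_lt_two)
      simpa using this
    · have := (summable_nat_add_iff 1).2 (summable_geometric_of_lt_one (r := (1 / 2 : ℝ))
        (by norm_num) (by norm_num))
      exact this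
  have hnn : ∀ j : ℕ, 0 ≤ 1 / ((j : ℝ) + 1) ^ 2 + dl j := fun j => by
    have := dl_pos j
    positivity
  refine ⟨∑' j : ℕ, (1 / ((j : ℝ) + 1) ^ 2 + dl j), tsum_nonneg hnn, fun n => ?_⟩
  refine le_trans (Finset.sum_le_sum fun j _ => ?_) (h1.sum_le_tsum (Finset.range n) fun j _ => hnn j)
  have hd := dl_pos j
  have hdp : 0 < (dl j) ^ p := Real.rpow_pos_of_pos hd p
  rw [abs_of_pos hd]
  have h2 : (Nb p j : ℝ) ≤ ((dl j) ^ p)⁻¹ / ((j : ℝ) + 1) ^ 2 + 1 :=
    (Nat.ceil_lt_add_one (by positivity)).le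
  have h3 : (dl j) ^ p ≤ dl j := by
    have := Real.rpow_le_rpow_of_exponent_ge hd (dl_le j) hp
    rwa [Real.rpow_one] at this
  calc (Nb p j : ℝ) * dl j ^ p ≤ (((dl j) ^ p)⁻¹ / ((j : ℝ) + 1) ^ 2 + 1) * dl j ^ p := by gcongr
    _ = 1 / ((j : ℝ) + 1) ^ 2 + dl j ^ p := by field_simp
    _ ≤ _ := by gcongr

theorem lower (p : ℝ) (hp : 1 ≤ p) (j : ℕ) :
    ((4 * π) ^ p)⁻¹ * (1 / ((j : ℝ) + 1)) ≤ (Nb p j : ℝ) * |v 1 - v (1 - dl j)| ^ p := by
  have hd := dl_pos j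
  have hdp : 0 < (dl j) ^ p := Real.rpow_pos_of_pos hd p
  have hpi := Real.pi_pos
  have h4 : 0 < (4 * π) ^ p := Real.rpow_pos_of_pos (by positivity) p
  have hj : (0 : ℝ) < (j : ℝ) + 1 := by positivity
  have hj1 : (1 : ℝ) ≤ (j : ℝ) + 1 := by
    have : (0 : ℝ) ≤ j := Nat.cast_nonneg j
    linarith
  have hg := v_gap (j + 1) (dl j) rfl
  have h2 : ((dl j) ^ p)⁻¹ / ((j : ℝ) + 1) ^ 2 ≤ (Nb p j : ℝ) := Nat.le_ceil _
  have h5 : (dl j * ((j + 1 : ℕ) : ℝ) / (4 * π)) ^ p ≤ |v 1 - v (1 - dl j)| ^ p :=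
    Real.rpow_le_rpow (by positivity) hg (by linarith)
  have h6 : (j : ℝ) + 1 ≤ ((j : ℝ) + 1) ^ p := by
    have := Real.rpow_le_rpow_of_exponent_le hj1 hp
    rwa [Real.rpow_one] at this
  have h7 : (dl j * ((j + 1 : ℕ) : ℝ) / (4 * π)) ^ p
      = (dl j) ^ p * ((j : ℝ) + 1) ^ p / (4 * π) ^ p := by
    push_cast
    rw [Real.div_rpow (by positivity) (by positivity), Real.mul_rpow hd.le hj.le]
  calc ((4 * π) ^ p)⁻¹ * (1 / ((j : ℝ) + 1))
      = (((dl j) ^ p)⁻¹ / ((j : ℝ) + 1) ^ 2) * ((dl j) ^ p * ((j : ℝ) + 1) / (4 * π) ^ p) := by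
        field_simp
    _ ≤ (((dl j) ^ p)⁻¹ / ((j : ℝ) + 1) ^ 2) * ((dl j) ^ p * ((j : ℝ) + 1) ^ p / (4 * π) ^ p) := by
        gcongr
    _ ≤ (Nb p j : ℝ) * |v 1 - v (1 - dl j)| ^ p := by
        rw [← h7]
        gcongr

end constr

theorem diverges (p : ℝ) (hp : 1 ≤ p) :
    Tendsto (fun n => ∑ j ∈ Finset.range n, (Nb p j : ℝ) * |v 1 - v (1 - dl j)| ^ p) atTop atTop := by
  have h1 := Real.tendsto_sum_range_one_div_nat_succ_atTop
  have hpi := Real.pi_pos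
  have h4 : 0 < ((4 * π) ^ p)⁻¹ := inv_pos.2 (Real.rpow_pos_of_pos (by positivity) p)
  have h2 := h1.const_mul_atTop h4
  refine tendsto_atTop_mono (fun n => ?_) h2
  rw [Finset.mul_sum]
  exact Finset.sum_le_sum fun j _ => lower p hp j

/-- `a n ↑ l`: the sequence is nondecreasing with limit `l`. -/
def IncTo {α : Type} [Preorder α] [TopologicalSpace α] (a : ℕ → α) (l : α) : Prop :=
  Monotone a ∧ Tendsto a atTop (𝓝 l)

/-- `f` is Lipschitz, `T₁` and all `T₀ n` are contractions and `sup_n ‖T₁ - T₀ n‖_p < ∞`. -/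
def Admissible {H : Type u} [NormedAddCommGroup H] [InnerProductSpace ℂ H] [CompleteSpace H]
    (p : ℝ) (f : Circle → ℂ) (T₁ : H →L[ℂ] H) (T₀ : ℕ → H →L[ℂ] H) : Prop :=
  (∃ K : ℝ≥0, LipschitzWith K f) ∧ ‖T₁‖ ≤ 1 ∧ (∀ n, ‖T₀ n‖ ≤ 1) ∧
    ∃ M : ℝ≥0, ∀ n, sN p (T₁ - T₀ n) ≤ M

/-- `‖f(T₁) - f(T₀ n)‖_p` -/
noncomputable def gap {H : Type u} [NormedAddCommGroup H] [InnerProductSpace ℂ H] [CompleteSpace H]
    (p : ℝ) (f : Circle → ℂ) (T₁ : H →L[ℂ] H) (T₀ : ℕ → H →L[ℂ] H) (n : ℕ) : ℝ≥0∞ :=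
  sN p (fc f T₁ - fc f (T₀ n))

/-- The question of the problem, for `1 < p < ∞`.

First part: with contractions `T₀ n` of norm one allowed the answer is yes, on every
infinite-dimensional Hilbert space.

Second part: as soon as one of the `T₀ m` is a strict contraction the answer is no: for every
Lipschitz `f` the norms `‖f(T₁) - f(T₀ n)‖_p` stay bounded. -/
theorem result (p : ℝ) (hp : 1 < p) :
    (∀ (H : Type u) [NormedAddCommGroup H] [InnerProductSpace ℂ H] [CompleteSpace H],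
      ¬ FiniteDimensional ℂ H →
      ∃ (f : Circle → ℂ) (T₁ : H →L[ℂ] H) (T₀ : ℕ → H →L[ℂ] H),
        Admissible p f T₁ T₀ ∧ f ∉ DiscAlgebra ∧ IncTo (fun n => ‖T₀ n‖) 1 ∧
        (∀ n, gap p f T₁ T₀ n ≠ ∞) ∧ IncTo (gap p f T₁ T₀) ∞) ∧
    (∀ (H : Type u) [NormedAddCommGroup H] [InnerProductSpace ℂ H] [CompleteSpace H]
      (f : Circle → ℂ) (T₁ : H →L[ℂ] H) (T₀ : ℕ → H →L[ℂ] H),
      Admissible p f T₁ T₀ → (∃ m, ‖T₀ m‖ < 1) → ∃ C : ℝ≥0, ∀ n, gap p f T₁ T₀ n ≤ C) := by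
  classical
  constructor
  · intro H _ _ _ hH
    have hp0 : 0 < p := by linarith
    obtain ⟨w, b, -⟩ := exists_hilbertBasis ℂ H
    have hinf : Infinite w := by
      by_contra hfin
      rw [not_infinite_iff_finite] at hfin
      have : Fintype w := Fintype.ofFinite w
      exact hH (Module.Finite.of_basis b.toOrthonormalBasis.toBasis)
    let e : (Σ _ : ℕ, ℕ) ↪ w :=
      (Denumerable.eqv (Σ _ : ℕ, ℕ)).toEmbedding.trans (Infinite.natEmbedding w)
    let δ : w → ℝ := Function.extend e (fun q => dl q.1) 0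
    have hδe : ∀ q, δ (e q) = dl q.1 := fun q => e.injective.extend_apply _ _ _
    have hSe : ∀ n k, k ∈ Sx p e n → ∃ q, e q = k := by
      intro n k hk
      unfold Sx at hk
      obtain ⟨q, -, hq⟩ := Finset.mem_map.1 hk
      exact ⟨q, hq⟩
    let T₀ : ℕ → H →L[ℂ] H := fun n => Tf b δ (Sx p e n)
    have hT₀ : ∀ n, Dg b (T₀ n) (fun k => (((if k ∈ Sx p e n then 1 - δ k else 1 : ℝ)) : ℂ)) :=
      fun n => by
        have h := Tf_dg (b := b) δ (Sx p e n)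
        convert h
    have hr0 : ∀ n k, 0 ≤ (if k ∈ Sx p e n then 1 - δ k else 1 : ℝ) := by
      intro n k
      split_ifs with hk
      · obtain ⟨q, rfl⟩ := hSe n k hk
        rw [hδe]
        linarith [dl_le q.1]
      · exact zero_le_one
    have hr1 : ∀ n k, (if k ∈ Sx p e n then 1 - δ k else 1 : ℝ) ≤ 1 := by
      intro n k
      split_ifs with hk
      · obtain ⟨q, rfl⟩ := hSe n k hk
        rw [hδe]
        linarith [dl_pos q.1]
      · exact le_rfl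
    have hone : Dg b (1 : H →L[ℂ] H) (fun _ => (((1 : ℝ)) : ℂ)) := one_dg
    have hn1 : ‖(1 : H →L[ℂ] H)‖ ≤ 1 := hone.norm_le fun k => by simp
    have hnT : ∀ n, ‖T₀ n‖ ≤ 1 := fun n => (hT₀ n).norm_le fun k => by
      rw [Complex.norm_real, Real.norm_of_nonneg (hr0 n k)]
      exact hr1 n k
    have hnT1 : ∀ n, ‖T₀ n‖ = 1 := by
      intro n
      refine le_antisymm (hnT n) ?_
      obtain ⟨k, hk⟩ := Infinite.exists_notMem_finset (Sx p e n)
      have h1 : (T₀ n) (b k) = ((if k ∈ Sx p e n then 1 - δ k else 1 : ℝ) : ℂ) • b k := (hT₀ n) k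
      rw [if_neg hk] at h1
      have h2 := (T₀ n).le_opNorm (b k)
      rw [h1, norm_smul, b.orthonormal.1 k] at h2
      simpa using h2
    -- the differences of the contractions
    have hdiff : ∀ n, Dg b (1 - T₀ n) (fun k => if k ∈ Sx p e n then ((δ k : ℝ) : ℂ) else 0) := by
      intro n k
      rw [(hone.sub (hT₀ n)) k]
      congr 1
      beta_reduce
      split_ifs <;> simp
    have hA : ∀ n, sN p ((1 : H →L[ℂ] H) - T₀ n)
        = (ENNReal.ofReal (∑ j ∈ Finset.range n, (Nb p j : ℝ) * |dl j| ^ p)) ^ (1 / p) := by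
      intro n
      rw [sN_fin hp0 (Sx p e n) (hdiff n) (fun k hk => if_neg hk)]
      congr 1
      rw [← sum_Sx p hp0 e n (fun k => ((δ k : ℝ) : ℂ)) dl (fun q => by rw [hδe])]
      exact Finset.sum_congr rfl fun k hk => by rw [if_pos hk]
    -- the differences of the functions
    have hf1 := hone.fc (fun _ => zero_le_one) (fun _ => le_rfl)
    have hf0 := fun n => (hT₀ n).fc (hr0 n) (hr1 n)
    have hfd : ∀ n, Dg b (fc fE 1 - fc fE (T₀ n))
        (fun k => if k ∈ Sx p e n then ((v 1 - v (1 - δ k) : ℝ) : ℂ) else 0) := by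
      intro n k
      rw [(hf1.sub (hf0 n)) k]
      congr 1
      beta_reduce
      split_ifs <;> simp
    have hB : ∀ n, sN p (fc fE (1 : H →L[ℂ] H) - fc fE (T₀ n))
        = (ENNReal.ofReal (∑ j ∈ Finset.range n,
          (Nb p j : ℝ) * |v 1 - v (1 - dl j)| ^ p)) ^ (1 / p) := by
      intro n
      rw [sN_fin hp0 (Sx p e n) (hfd n) (fun k hk => if_neg hk)]
      congr 1
      rw [← sum_Sx p hp0 e n (fun k => ((v 1 - v (1 - δ k) : ℝ) : ℂ))
        (fun j => v 1 - v (1 - dl j)) (fun q => by rw [hδe])]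
      exact Finset.sum_congr rfl fun k hk => by rw [if_pos hk]
    refine ⟨fE, 1, T₀, ⟨⟨1, fE_lip⟩, hn1, hnT, ?_⟩, fE_not_mem, ⟨?_, ?_⟩, ?_, ⟨?_, ?_⟩⟩
    · obtain ⟨M, hM0, hM⟩ := upper p hp.le
      have hfin : (ENNReal.ofReal M) ^ (1 / p) ≠ ∞ :=
        ENNReal.rpow_ne_top_of_nonneg (by positivity) ENNReal.ofReal_ne_top
      refine ⟨((ENNReal.ofReal M) ^ (1 / p)).toNNReal, fun n => ?_⟩
      rw [ENNReal.coe_toNNReal hfin, hA n]
      exact ENNReal.rpow_le_rpow (ENNReal.ofReal_le_ofReal (hM n)) (by positivity)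
    · intro m n _
      simp only [hnT1]
      exact le_rfl
    · simp only [hnT1]
      exact tendsto_const_nhds
    · intro n
      unfold gap
      rw [hB n]
      exact ENNReal.rpow_ne_top_of_nonneg (by positivity) ENNReal.ofReal_ne_top
    · intro m n hmn
      unfold gap
      rw [hB m, hB n]
      refine ENNReal.rpow_le_rpow (ENNReal.ofReal_le_ofReal ?_) (by positivity)
      exact Finset.sum_le_sum_of_subset_of_nonneg (Finset.range_mono hmn) fun j _ _ => by positivity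
    · unfold gap
      simp only [hB]
      have h1 := ENNReal.tendsto_ofReal_atTop.comp (diverges p hp.le)
      have h2 := (ENNReal.continuous_rpow_const (y := 1 / p)).tendsto ∞
      rw [ENNReal.top_rpow_of_pos (by positivity)] at h2
      exact h2.comp h1
  · intro H _ _ _ f T₁ T₀ hadm hm
    obtain ⟨⟨K, hf⟩, hT₁, hT₀, M, hM⟩ := hadm
    obtain ⟨m, hm⟩ := hm
    exact strict_bounded hp.le hf hT₁ hT₀ hM hm

end Pool.Agent.Results.MP_6ade77_an.NormOneBlowUp
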